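import Pool.Agent.PW.StmtsA

/-!
Squad PW, row ZER (helper18): calculus of `Zer`.
-/

set_option autoImplicit false

noncomputable section

namespace Pool.Agent.PW.H18

open MvPolynomial
open Pool.Agent.RS (FF io)

theorem zer (hDer : DerStmt) : ZerStmt := by
  intro E D _ _ _ _ ζ J
  classical
  obtain ⟨hd1, -, hd3⟩ := hDer E
  have hinj : Function.Injective (io E) := Pool.Agent.RS.io_injective
  have hPC : ∀ r : E, Ph ζ J (C r) = (C (algebraMap E D r) : MvPolynomial ℕ D) := by
    intro r
    show aeval _ (C r) = _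
    rw [aeval_C]
    rfl
  have hPX : ∀ n : ℕ, Ph (E := E) ζ J (X n) = if n ∈ J then X n else C (ζ n) := by
    intro n
    show aeval _ (X n) = _
    rw [aeval_X]
  have h1 : ∀ i ∈ J, ∀ f : MvPolynomial ℕ E, Ph ζ J (pderiv i f) = pderiv i (Ph ζ J f) := by
    intro i hi f
    induction f using MvPolynomial.induction_on with
    | C r => rw [pderiv_C, map_zero, hPC, pderiv_C]
    | add p q hp hq => rw [map_add, map_add, map_add, map_add, hp, hq]
    | mul_X p n hp =>
      rw [Derivation.leibniz, map_add, smul_eq_mul, smul_eq_mul, map_mul, map_mul, hp, map_mul,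
        Derivation.leibniz, smul_eq_mul, smul_eq_mul]
      congr 1
      congr 1
      rw [hPX]
      by_cases hn : n ∈ J
      · rw [if_pos hn]
        by_cases hni : n = i
        · rw [hni, pderiv_X_self, pderiv_X_self, map_one]
        · rw [pderiv_X_of_ne hni, pderiv_X_of_ne hni, map_zero]
      · rw [if_neg hn, pderiv_C]
        have hni : n ≠ i := fun h => hn (h ▸ hi)
        rw [pderiv_X_of_ne hni, map_zero]
  have hio : ∀ b : MvPolynomial ℕ E, Ph ζ J b ≠ 0 → io E b ≠ 0 := by
    intro b hb h
    apply hb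
    have h0 : b = 0 := hinj (by rw [h, map_zero])
    rw [h0, map_zero]
  refine ⟨h1, ?_, ?_, ?_, ?_⟩
  · rintro Q W ⟨a, b, rfl, hb, ha⟩
    refine ⟨Q * a, b, ?_, hb, ?_⟩
    · rw [map_mul, mul_div_assoc]
    · rw [map_mul, ha, mul_zero]
  · rintro i hi W ⟨a, b, rfl, hb, ha⟩
    refine ⟨b * pderiv i a - a * pderiv i b, b ^ 2, ?_, ?_, ?_⟩
    · rw [hd3 (dd i) (io E a) (io E b) (hio b hb), hd1, hd1, map_sub, map_mul, map_mul, map_pow]
    · rw [map_pow]
      exact pow_ne_zero 2 hb
    · rw [map_sub, map_mul, map_mul, h1 i hi, h1 i hi, ha, map_zero, mul_zero, zero_mul, sub_zero]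
  · intro a ha h
    have h2 : (Ph ζ J : MvPolynomial ℕ E →ₐ[E] MvPolynomial ℕ D).toRingHom a =
        (MvPolynomial.map (algebraMap E D)) a := by
      apply hom_congr_vars
      · apply RingHom.ext
        intro r
        show Ph ζ J (C r) = MvPolynomial.map (algebraMap E D) (C r)
        rw [hPC, map_C]
      · intro i hi _
        show Ph ζ J (X i) = MvPolynomial.map (algebraMap E D) (X i)
        rw [hPX, if_pos (ha hi), map_X]
      · rfl
    have h3 : MvPolynomial.map (algebraMap E D) a = 0 := by
      rw [← h2]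
      exact h
    have h4 : Function.Injective (algebraMap E D) := (algebraMap E D).injective
    exact map_injective _ h4 (by rw [h3, map_zero])
  · rintro a b hb ⟨a', b', he, hb', ha'⟩
    rw [div_eq_div_iff (hio b hb) (hio b' hb'), ← map_mul, ← map_mul] at he
    have h2 := hinj he
    have h3 := congrArg (Ph ζ J) h2
    rw [map_mul, map_mul, ha', zero_mul] at h3
    rcases mul_eq_zero.1 h3 with h4 | h4
    · exact h4
    · exact absurd h4 hb'

end Pool.Agent.PW.H18
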